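import Pool.Agent.Helper74.CO.Goals

/-!
Packet 12520 (CO-ABS, MP_c5396e_co): `t_ABS`, by helper39.
-/

set_option autoImplicit false

namespace Pool.Agent.Helper39.CO

open Finset Pool.Agent.Helper74.CO

theorem mem_dots {n : ℕ} {f : Equiv.Perm (Fin n)} {s t : ℤ} {P : ℤ × ℤ} :
    P ∈ dots f s t ↔ ∃ i : Fin n, (i : ℤ) + s = P.1 ∧ ((f i : Fin n) : ℤ) + t = P.2 := by
  unfold dots
  simp [Prod.ext_iff]

theorem dots_card {n : ℕ} (f : Equiv.Perm (Fin n)) (s t : ℤ) : #(dots f s t) = n := by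
  unfold dots
  rw [Finset.card_image_of_injective, Finset.card_univ, Fintype.card_fin]
  intro i j h
  have h1 := congrArg Prod.fst h
  simp only at h1
  apply Fin.ext
  omega

theorem dots_fst {n : ℕ} {f : Equiv.Perm (Fin n)} {s t : ℤ} {P Q : ℤ × ℤ}
    (hP : P ∈ dots f s t) (hQ : Q ∈ dots f s t) (h : P.1 = Q.1) : P = Q := by
  rw [mem_dots] at hP hQ
  obtain ⟨i, hi, hi'⟩ := hP
  obtain ⟨j, hj, hj'⟩ := hQ
  have : i = j := by apply Fin.ext; omega
  subst this
  exact Prod.ext h (by omega)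

theorem dots_snd {n : ℕ} {f : Equiv.Perm (Fin n)} {s t : ℤ} {P Q : ℤ × ℤ}
    (hP : P ∈ dots f s t) (hQ : Q ∈ dots f s t) (h : P.2 = Q.2) : P = Q := by
  rw [mem_dots] at hP hQ
  obtain ⟨i, hi, hi'⟩ := hP
  obtain ⟨j, hj, hj'⟩ := hQ
  have : f i = f j := by apply Fin.ext; omega
  have : i = j := f.injective this
  subst this
  exact Prod.ext (by omega) h

theorem loc {X : Finset ℤ} {s : ℤ} {n N m : ℕ} (hX : #X = N) (hN : 1 ≤ N)
    (h1 : ∀ x ∈ X, s ≤ x ∧ x < s + n) (h2 : ∀ x ∈ X, 0 ≤ x ∧ x ≤ m) {x : ℤ}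
    (hx : s ≤ x) (hx' : x < s + n) : -x + N ≤ n ∧ x - m + N ≤ n := by
  have c1 : N ≤ (s + n - 0).toNat := by
    rw [← Int.card_Ico, ← hX]
    apply Finset.card_le_card
    intro y hy
    rw [Finset.mem_Ico]
    exact ⟨(h2 y hy).1, (h1 y hy).2⟩
  have c2 : N ≤ ((m : ℤ) + 1 - s).toNat := by
    rw [← Int.card_Icc, ← hX]
    apply Finset.card_le_card
    intro y hy
    rw [Finset.mem_Icc]
    exact ⟨(h1 y hy).1, (h2 y hy).2⟩
  constructor <;> omega

theorem t_ABS (hK : KILL) : ABS := by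
  classical
  intro A T m m₁ η ε δ C C' hm hG hD hδ hδε hδη hδ20 n f s t hf hn hN
  have hmR : (1 : ℝ) ≤ m := by exact_mod_cast hm
  set N := #(A ∩ dots f s t) with hNdef
  have hN' : (1 - δ) * m ≤ N := hN
  have hN1 : 1 ≤ N := by
    by_contra h
    have h0 : N = 0 := by omega
    rw [h0, Nat.cast_zero] at hN'
    nlinarith
  have hNn : N ≤ n :=
    (Finset.card_le_card Finset.inter_subset_right).trans (dots_card f s t).le
  have hm₁ : m ≤ m₁ ∧ m₁ ≤ m + 1 := by rcases hG.hm with h | h <;> omega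
  -- localisation
  have hcol : ∀ P ∈ dots f s t, s ≤ P.1 ∧ P.1 < s + n := by
    intro P hP
    obtain ⟨i, hi, _⟩ := mem_dots.mp hP
    have := i.2
    omega
  have hrow : ∀ P ∈ dots f s t, t ≤ P.2 ∧ P.2 < t + n := by
    intro P hP
    obtain ⟨i, _, hi⟩ := mem_dots.mp hP
    have := (f i).2
    omega
  have hloc1 : ∀ P ∈ dots f s t, -P.1 + N ≤ n ∧ P.1 - m + N ≤ n := by
    intro P hP
    refine loc (X := (A ∩ dots f s t).image Prod.fst) (s := s) ?_ hN1 ?_ ?_ (hcol P hP).1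
      (hcol P hP).2
    · rw [Finset.card_image_of_injOn]
      intro P hP Q hQ h
      exact dots_fst (Finset.mem_inter.mp hP).2 (Finset.mem_inter.mp hQ).2 h
    · intro x hx
      obtain ⟨Q, hQ, rfl⟩ := Finset.mem_image.mp hx
      exact hcol Q (Finset.mem_inter.mp hQ).2
    · intro x hx
      obtain ⟨Q, hQ, rfl⟩ := Finset.mem_image.mp hx
      have := hG.box Q (Finset.mem_inter.mp hQ).1
      omega
  have hloc2 : ∀ P ∈ dots f s t, -P.2 + N ≤ n ∧ P.2 - m + N ≤ n := by
    intro P hP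
    refine loc (X := (A ∩ dots f s t).image Prod.snd) (s := t) ?_ hN1 ?_ ?_ (hrow P hP).1
      (hrow P hP).2
    · rw [Finset.card_image_of_injOn]
      intro P hP Q hQ h
      exact dots_snd (Finset.mem_inter.mp hP).2 (Finset.mem_inter.mp hQ).2 h
    · intro x hx
      obtain ⟨Q, hQ, rfl⟩ := Finset.mem_image.mp hx
      exact hrow Q (Finset.mem_inter.mp hQ).2
    · intro x hx
      obtain ⟨Q, hQ, rfl⟩ := Finset.mem_image.mp hx
      have := hG.box Q (Finset.mem_inter.mp hQ).1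
      omega
  -- the size of `A \ B`
  have hdiff : (#(A \ dots f s t) : ℝ) ≤ δ * m := by
    have h1 : #(A \ dots f s t) + N = m := by
      rw [hNdef, Finset.card_sdiff_add_card_inter, hG.card]
    have h2 : (#(A \ dots f s t) : ℝ) + N = m := by exact_mod_cast h1
    linarith
  have hkill : ∀ P ∈ dots f s t, P ∉ A → (#(sols A P) : ℝ) < η * m := by
    intro P hP hPA
    have h1 := hK A n f s t P hf hG.sidon hP hPA
    have h2 : (#(sols A P) : ℝ) ≤ 4 * #(A \ dots f s t) := by exact_mod_cast h1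
    nlinarith
  have hnR : (4 : ℝ) * n ≤ 5 * m := by exact_mod_cast hn
  -- part (1)
  have hnm : n ≤ m := by
    by_contra hlt
    have hlt' : m + 1 ≤ n := by omega
    obtain ⟨k, hk1, hk2⟩ : ∃ k : ℤ, t ≤ (m + 1) * k ∧ (m + 1) * k < t + n := by
      refine ⟨-((-t) / (m + 1)), ?_, ?_⟩
      · have := Int.mul_ediv_self_le (x := -t) (k := (m : ℤ) + 1) (by omega)
        linarith
      · have := Int.lt_mul_ediv_self_add (x := -t) (k := (m : ℤ) + 1) (by omega)
        have hc : ((m : ℤ) + 1) ≤ n := by exact_mod_cast hlt'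
        linarith
    -- the dot in the row
    have hj : ((m + 1) * k - t).toNat < n := by omega
    set i : Fin n := f.symm ⟨((m + 1) * k - t).toNat, hj⟩ with hi
    have hfi : ((f i : Fin n) : ℤ) = (m + 1) * k - t := by
      rw [hi, Equiv.apply_symm_apply]
      simp only
      rw [Int.toNat_of_nonneg (by linarith)]
    have hP : (((i : ℤ) + s, (m + 1) * k) : ℤ × ℤ) ∈ dots f s t := by
      rw [mem_dots]
      exact ⟨i, rfl, by simp only; rw [hfi]; ring⟩
    have hl1 := hloc1 _ hP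
    have hl2 := hloc2 _ hP
    simp only at hl1 hl2
    have hl1a : (-((i : ℤ) + s : ℤ) : ℝ) + N ≤ n := by exact_mod_cast hl1.1
    have hl1b : (((i : ℤ) + s : ℤ) : ℝ) - m + N ≤ n := by exact_mod_cast hl1.2
    have hl2a : (-(((m : ℤ) + 1) * k : ℤ) : ℝ) + N ≤ n := by exact_mod_cast hl2.1
    have hl2b : ((((m : ℤ) + 1) * k : ℤ) : ℝ) - m + N ≤ n := by exact_mod_cast hl2.2
    have hNr : (19 / 20 : ℝ) * m ≤ N := by nlinarith
    have hm₁R : (m : ℝ) ≤ m₁ := by exact_mod_cast hm₁.1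
    have hk : k = 0 ∨ k = 1 := by
      have hk3 : -((m : ℝ) + 1) < ((m : ℝ) + 1) * k := by
        push_cast at hl2a
        nlinarith
      have hk4 : ((m : ℝ) + 1) * k < ((m : ℝ) + 1) * 2 := by
        push_cast at hl2b
        nlinarith
      have hk5 : (-1 : ℝ) < k := by
        by_contra h
        push Not at h
        nlinarith
      have hk6 : (k : ℝ) < 2 := lt_of_mul_lt_mul_left hk4 (by linarith)
      have hk5' : (-1 : ℤ) < k := by exact_mod_cast hk5
      have hk6' : k < 2 := by exact_mod_cast hk6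
      omega
    have hv : ((m : ℤ) + 1) * k = 0 ∨ ((m : ℤ) + 1) * k = m + 1 := by
      rcases hk with h | h
      · left; rw [h, mul_zero]
      · right; rw [h, mul_one]
    have hPA : (((i : ℤ) + s, (m + 1) * k) : ℤ × ℤ) ∉ A := by
      intro hA
      have := (hG.box _ hA).2.2
      simp only at this
      rcases hv with h | h <;> rw [h] at this <;> omega
    have hb := hG.blank ((i : ℤ) + s) ((m + 1) * k) (by
      push_cast at hl1a ⊢
      nlinarith) (by
      push_cast at hl1b ⊢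
      nlinarith) hv
    exact absurd (hkill _ hP hPA) (not_lt.mpr hb)
  have hnmR : (n : ℝ) ≤ m := by exact_mod_cast hnm
  -- part (2)
  have hS : #((dots f s t).filter (· ∉ T)) ≤ C := by
    refine hG.exc _ ?_
    intro P hP
    obtain ⟨hPB, hPT⟩ := Finset.mem_filter.mp hP
    have hl1 := hloc1 P hPB
    have hl2 := hloc2 P hPB
    have hl1a : (-(P.1 : ℝ)) + N ≤ n := by exact_mod_cast hl1.1
    have hl1b : (P.1 : ℝ) - m + N ≤ n := by exact_mod_cast hl1.2
    have hl2a : (-(P.2 : ℝ)) + N ≤ n := by exact_mod_cast hl2.1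
    have hl2b : (P.2 : ℝ) - m + N ≤ n := by exact_mod_cast hl2.2
    refine ⟨hPT, ?_, ?_, ?_, ?_, hkill P hPB (fun h => hPT (hG.sub P h))⟩ <;> nlinarith
  -- part (3)
  have hdown := hD n f s t hnm (hN'.trans (by exact_mod_cast hNn)) hS
  exact ⟨by omega, hnm, hS.trans (le_max_left _ _)⟩

end Pool.Agent.Helper39.CO
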