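import Pool.Agent.Helper74.CO.Goals

/-!
Packet 12493 (CO-IND-CHM, MP_c5396e_co): `t_IND`, `t_CHM`, by helper39.
-/

set_option autoImplicit false

namespace Pool.Agent.Helper39.CO

open Pool.Agent.Helper74.CO

theorem t_IND : Pool.Agent.Helper74.CO.IND := by
  classical
  intro F _ _ α hα hq
  have hα0 : α ≠ 0 := by
    rintro rfl
    have h1 : ∀ x : F, x = 0 ∨ x = 1 := by
      intro x
      by_cases hx : x = 0
      · exact Or.inl hx
      · obtain ⟨k, hk⟩ := hα x hx
        rcases Nat.eq_zero_or_pos k with h0 | h0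
        · right
          rw [← hk, h0, pow_zero]
        · exact absurd (by rw [← hk, zero_pow h0.ne']) hx
    have h2 : (Finset.univ : Finset F) ⊆ {0, 1} := by
      intro x _
      rcases h1 x with h | h <;> simp [h]
    have h3 := Finset.card_le_card h2
    have h4 : ({0, 1} : Finset F).card ≤ 2 := Finset.card_le_two
    rw [Finset.card_univ] at h3
    omega
  have hord : orderOf (Units.mk0 α hα0) = Fintype.card F - 1 := by
    rw [orderOf_eq_card_of_forall_mem_zpowers, Nat.card_eq_fintype_card, Fintype.card_units]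
    intro u
    obtain ⟨k, hk⟩ := hα (u : F) u.ne_zero
    refine ⟨(k : ℤ), ?_⟩
    apply Units.ext
    simpa using hk
  have hcast : ((Fintype.card F : ℤ) - 1) = ((Fintype.card F - 1 : ℕ) : ℤ) := by
    rw [Nat.cast_sub (by omega)]
    simp
  have h1 : ∀ i : ℤ, α ^ i = 1 ↔ ((Fintype.card F : ℤ) - 1) ∣ i := by
    intro i
    rw [hcast, ← hord, orderOf_dvd_iff_zpow_eq_one, Units.ext_iff]
    simp
  refine ⟨hα0, h1, ?_, ?_⟩
  · intro x hx
    have hne : {i : ℕ | α ^ i = x}.Nonempty := hα x hx
    have hmem : α ^ (ind α x) = x := Nat.sInf_mem hne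
    refine ⟨hmem, ?_⟩
    have hle : ind α x ≤ (ind α x) % (Fintype.card F - 1) := by
      apply Nat.sInf_le
      show α ^ (ind α x % (Fintype.card F - 1)) = x
      have h2 : (Units.mk0 α hα0) ^ (ind α x % (Fintype.card F - 1)) =
          (Units.mk0 α hα0) ^ (ind α x) := by
        rw [← hord, pow_mod_orderOf]
      have h3 := congrArg (fun u : Fˣ => (u : F)) h2
      simp only [Units.val_pow_eq_pow_val, Units.val_mk0] at h3
      rw [h3, hmem]
    have hlt : ind α x % (Fintype.card F - 1) < Fintype.card F - 1 := Nat.mod_lt _ (by omega)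
    rw [hcast]
    exact_mod_cast lt_of_le_of_lt hle hlt
  · intro i j
    rw [← h1, zpow_sub₀ hα0, div_eq_one_iff_eq (zpow_ne_zero _ hα0)]

theorem ex_zero : ex 0 = 1 := by simp [ex]

theorem ex_add (s t : ℝ) : ex (s + t) = ex s * ex t := by
  rw [ex, ex, ex, ← Complex.exp_add]
  congr 1
  push_cast
  ring

theorem ex_int (m : ℤ) : ex m = 1 := by
  rw [ex, Complex.exp_eq_one_iff]
  refine ⟨m, ?_⟩
  push_cast
  ring

theorem ex_add_int (s : ℝ) (m : ℤ) : ex (s + m) = ex s := by
  rw [ex_add, ex_int, mul_one]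

theorem ex_zpow (t : ℝ) (j : ℤ) : ex (j * t) = ex t ^ j := by
  rw [ex, ex, ← Complex.exp_int_mul]
  congr 1
  push_cast
  ring

theorem ex_eq_one {t : ℝ} (h : ex t = 1) : ∃ n : ℤ, t = n := by
  rw [ex, Complex.exp_eq_one_iff] at h
  obtain ⟨n, hn⟩ := h
  refine ⟨n, ?_⟩
  have h2 : (2 * (Real.pi : ℂ) * Complex.I) ≠ 0 := Complex.two_pi_I_ne_zero
  have h3 : (t : ℂ) * (2 * (Real.pi : ℂ) * Complex.I) = (n : ℂ) * (2 * Real.pi * Complex.I) := by
    rw [← hn]; ring
  have h4 := mul_right_cancel₀ h2 h3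
  exact_mod_cast h4

theorem zpow_apply {F : Type} [Field F] (χ : MulChar F ℂ) (j : ℤ) {x : F} (hx : x ≠ 0) :
    (χ ^ j) x = (χ x) ^ j := by
  have hn : ∀ n : ℕ, (χ ^ n) x = (χ x) ^ n := by
    intro n
    have := MulChar.pow_apply_coe χ n (Units.mk0 x hx)
    simpa using this
  cases j with
  | ofNat n =>
    rw [Int.ofNat_eq_natCast, zpow_natCast, zpow_natCast]
    exact hn n
  | negSucc n =>
    rw [zpow_negSucc, zpow_negSucc, MulChar.inv_apply_eq_inv', hn]

theorem t_CHM (hIND : Pool.Agent.Helper74.CO.IND) : Pool.Agent.Helper74.CO.CHM := by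
  intro F _ _ _ α hα hq
  obtain ⟨hα0, h1, h2, h3⟩ := hIND F α hα hq
  have hq1 : ((Fintype.card F : ℝ) - 1) ≠ 0 := by
    have : (3 : ℝ) ≤ Fintype.card F := by exact_mod_cast hq
    linarith
  -- the additive property
  have key : ∀ i j : ℤ, α ^ i = α ^ j →
      ex ((i : ℝ) / ((Fintype.card F : ℝ) - 1)) = ex ((j : ℝ) / ((Fintype.card F : ℝ) - 1)) := by
    intro i j hij
    obtain ⟨m, hm⟩ := (h3 i j).mp hij
    have : (i : ℝ) / ((Fintype.card F : ℝ) - 1) = (j : ℝ) / ((Fintype.card F : ℝ) - 1) + m := by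
      have hi : (i : ℝ) = j + ((Fintype.card F : ℝ) - 1) * m := by
        have : i = j + ((Fintype.card F : ℤ) - 1) * m := by linarith
        exact_mod_cast congrArg (fun z : ℤ => (z : ℝ)) this
      rw [hi]
      field_simp
    rw [this, ex_add_int]
  let χ : MulChar F ℂ :=
    { toFun := fun x => if x = 0 then 0 else ex ((ind α x : ℝ) / ((Fintype.card F : ℝ) - 1))
      map_one' := by
        rw [if_neg one_ne_zero]
        have := key (ind α (1 : F)) 0 (by
          rw [zpow_natCast, (h2 1 one_ne_zero).1, zpow_zero])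
        rw [Int.cast_natCast] at this
        rw [this, Int.cast_zero, zero_div, ex_zero]
      map_mul' := by
        intro x y
        by_cases hx : x = 0
        · simp [hx]
        by_cases hy : y = 0
        · simp [hy]
        simp only [if_neg hx, if_neg hy, if_neg (mul_ne_zero hx hy)]
        rw [← ex_add, ← add_div]
        have := key (ind α (x * y)) (ind α x + ind α y) (by
          rw [zpow_add₀ hα0, zpow_natCast, zpow_natCast, zpow_natCast, (h2 _ (mul_ne_zero hx hy)).1,
            (h2 x hx).1, (h2 y hy).1])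
        push_cast at this
        exact this
      map_nonunit' := by
        intro x hx
        have : x = 0 := by
          by_contra h
          exact hx (isUnit_iff_ne_zero.mpr h)
        simp [this] }
  have hχ : ∀ x : F, x ≠ 0 → χ x = ex ((ind α x : ℝ) / ((Fintype.card F : ℝ) - 1)) := by
    intro x hx
    show (if x = 0 then (0 : ℂ) else ex ((ind α x : ℝ) / ((Fintype.card F : ℝ) - 1))) = _
    rw [if_neg hx]
  refine ⟨χ, ?_, ?_⟩
  · intro x hx j
    rw [zpow_apply χ j hx, hχ x hx, ex_zpow]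
  · intro j hj hlt hone
    have hi : (ind α α : ℤ) - 1 = 0 := by
      apply Int.eq_zero_of_abs_lt_dvd (m := (Fintype.card F : ℤ) - 1)
      · rw [← h3, zpow_natCast, (h2 α hα0).1, zpow_one]
      · have h4 := (h2 α hα0).2
        have hq' : (3 : ℤ) ≤ Fintype.card F := by exact_mod_cast hq
        rw [abs_lt]
        constructor <;> omega
    have hi' : (ind α α : ℝ) = 1 := by
      have : (ind α α : ℤ) = 1 := by linarith
      exact_mod_cast this
    have h5 : (χ ^ j) α = 1 := by
      rw [hone, MulChar.one_apply (isUnit_iff_ne_zero.mpr hα0)]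
    rw [zpow_apply χ j hα0, hχ α hα0, ← ex_zpow, hi'] at h5
    obtain ⟨n, hn⟩ := ex_eq_one h5
    have h6 : (j : ℝ) = ((Fintype.card F : ℝ) - 1) * n := by
      rw [← hn]; field_simp
    have h7 : j = ((Fintype.card F : ℤ) - 1) * n := by exact_mod_cast h6
    exact hj (Int.eq_zero_of_abs_lt_dvd ⟨n, h7⟩ hlt)

end Pool.Agent.Helper39.CO
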