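import Pool.Agent.Helper74.CO.Goals

/-!
Packet 12498 (CO-WP, MP_c5396e_co): `t_WP`, by helper39.
-/

set_option autoImplicit false

namespace Pool.Agent.Helper39.CO

open Finset Pool.Agent.Helper74.CO

theorem wp_norm_ex (t : ℝ) : ‖ex t‖ = 1 := by
  unfold ex
  have : (2 * (Real.pi : ℂ) * (t : ℂ) * Complex.I) = ((2 * Real.pi * t : ℝ) : ℂ) * Complex.I := by
    push_cast; ring
  rw [this]
  exact Complex.norm_exp_ofReal_mul_I _

theorem wp_ex_add (s t : ℝ) : ex (s + t) = ex s * ex t := by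
  unfold ex
  rw [← Complex.exp_add]
  congr 1
  push_cast
  ring

/-- the sum over a set which misses few elements. -/
theorem norm_sum_le_of_subset {ι : Type} [DecidableEq ι] {X Y : Finset ι} (hXY : X ⊆ Y)
    {f : ι → ℂ} (hf : ∀ x, ‖f x‖ ≤ 1) {m : ℕ} (hm : #(Y \ X) ≤ m) :
    ‖∑ x ∈ X, f x‖ ≤ ‖∑ x ∈ Y, f x‖ + m := by
  have h1 : ∑ x ∈ X, f x = ∑ x ∈ Y, f x - ∑ x ∈ Y \ X, f x := by
    rw [← Finset.sum_sdiff hXY]; ring
  rw [h1]
  refine (norm_sub_le _ _).trans ?_
  have h2 : ‖∑ x ∈ Y \ X, f x‖ ≤ ∑ x ∈ Y \ X, (1 : ℝ) :=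
    (norm_sum_le _ _).trans (Finset.sum_le_sum fun x _ => hf x)
  rw [Finset.sum_const, nsmul_eq_mul, mul_one] at h2
  have h3 : (#(Y \ X) : ℝ) ≤ m := by exact_mod_cast hm
  linarith

theorem wp_sum_mul {F : Type} [Field F] [Fintype F] [DecidableEq F] {ψ : AddChar F ℂ}
    (hψ : ψ ≠ 1) {j : F} (hj : j ≠ 0) : ∑ x, ψ (j * x) = 0 := by
  have h1 : ∑ x, ψ (j * x) = ∑ x, ψ x := Equiv.sum_comp (Equiv.mulLeft₀ j hj) (fun x => ψ x)
  rw [h1]
  exact AddChar.sum_eq_zero_of_ne_one hψ

/-- Kloosterman sums, all coefficients. -/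
theorem wp_klo {F : Type} [Field F] [Fintype F] [DecidableEq F] (hKLO : KLO F)
    {ψ : AddChar F ℂ} (hψ : ψ ≠ 1) {j b : F} (hb : b ≠ 0) :
    ‖∑ y ∈ univ.erase (0 : F), ψ (j * y + b / y)‖ ^ 2 ≤
      7 * Fintype.card F * √(Fintype.card F) := by
  have hq1 : (1 : ℝ) ≤ Fintype.card F := by
    have : 1 ≤ Fintype.card F := Fintype.card_pos
    exact_mod_cast this
  have hsq1 : 1 ≤ √(Fintype.card F : ℝ) := by
    rw [Real.one_le_sqrt]; exact hq1
  by_cases hj : j = 0
  · have h1 : ∑ y ∈ univ.erase (0 : F), ψ (j * y + b / y) = ∑ z ∈ univ.erase (0 : F), ψ z := by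
      refine Finset.sum_bij' (fun y _ => b / y) (fun z _ => b / z) ?_ ?_ ?_ ?_ ?_
      · intro y hy
        rw [Finset.mem_erase] at hy ⊢
        exact ⟨div_ne_zero hb hy.1, Finset.mem_univ _⟩
      · intro y hy
        rw [Finset.mem_erase] at hy ⊢
        exact ⟨div_ne_zero hb hy.1, Finset.mem_univ _⟩
      · intro y hy
        exact div_div_cancel₀ hb
      · intro y hy
        exact div_div_cancel₀ hb
      · intro y _
        rw [hj, zero_mul, zero_add]
    have h2 : ∑ z ∈ univ.erase (0 : F), ψ z = -1 := by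
      have h3 := Finset.add_sum_erase univ (fun z => ψ z) (Finset.mem_univ (0 : F))
      rw [AddChar.sum_eq_zero_of_ne_one hψ, AddChar.map_zero_eq_one] at h3
      linear_combination h3
    rw [h1, h2, norm_neg, norm_one]
    nlinarith
  · have h1 : ∑ y ∈ univ.erase (0 : F), ψ (j * y + b / y) =
        ∑ z ∈ univ.erase (0 : F), ψ (z + (j * b) / z) := by
      refine Finset.sum_bij' (fun y _ => j * y) (fun z _ => z / j) ?_ ?_ ?_ ?_ ?_
      · intro y hy
        rw [Finset.mem_erase] at hy ⊢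
        exact ⟨mul_ne_zero hj hy.1, Finset.mem_univ _⟩
      · intro y hy
        rw [Finset.mem_erase] at hy ⊢
        exact ⟨div_ne_zero hy.1 hj, Finset.mem_univ _⟩
      · intro y _
        rw [mul_div_cancel_left₀ _ hj]
      · intro y _
        rw [mul_div_cancel₀ _ hj]
      · intro y _
        rw [mul_div_mul_left _ _ hj]
    rw [h1]
    exact hKLO ψ (j * b) hψ (mul_ne_zero hj hb)

theorem t_WP (hLIM : LIM) (hKLO : ∀ (F : Type) [Field F] [Fintype F] [DecidableEq F], KLO F)
    (hCHA : CHA) : WP := by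
  intro K κ hκ
  obtain ⟨q₀, hq₀⟩ := hLIM κ hκ
  refine ⟨max q₀ K, ?_⟩
  intro p _ e v hp he hv j k hj hk hne
  have hp1 : q₀ ≤ p := (le_max_left _ _).trans hp
  have hp2 : K ≤ p := (le_max_right _ _).trans hp
  have hcard : Fintype.card (ZMod p) = p := ZMod.card p
  obtain ⟨ψ, hψ, hψl, hψ0, hψ1⟩ := hCHA p
  have hψne : ψ 1 ≠ 1 := by
    apply hψ1 1 one_ne_zero
    rw [abs_one]
    exact_mod_cast (Fact.out : p.Prime).one_lt
  have hterm : ∀ x, ex (j * cw p x + k * cw p (Mw e v x)) =
      ψ 1 ((j : ZMod p) * x + (k : ZMod p) * Mw e v x) := by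
    intro x
    rw [wp_ex_add, ← hψ, ← hψ, hψl j, hψl k, ← AddChar.map_add_eq_mul]
  have hn : ∀ x, ‖ψ 1 x‖ = 1 := fun x => by rw [hψ, wp_norm_ex]
  rw [Finset.sum_congr rfl fun x _ => hterm x]
  -- the number of elements of `X`
  have hXcard : (p : ℝ) - 5 ≤ #(Xw e v) := by
    have h1 : (univ : Finset (ZMod p)) ⊆ Xw e v ∪ {0, v, e} := by
      intro x _
      by_cases h0 : x = 0
      · simp [h0]
      · by_cases h2 : x = e
        · simp [h2]
        · by_cases h3 : x = v
          · simp [h3]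
          · simp [Xw, h0, h2, h3]
    have h2 := card_le_card h1
    have h3 := card_union_le (Xw e v) {0, v, e}
    have h4 : #({0, v, e} : Finset (ZMod p)) ≤ 3 := card_le_three
    rw [card_univ, hcard] at h2
    have h5 : p ≤ #(Xw e v) + 3 := by omega
    have h6 : (p : ℝ) ≤ #(Xw e v) + 3 := by exact_mod_cast h5
    linarith
  have hfin : ∀ S : ℝ, 0 ≤ S → S ^ 2 ≤ 16 * p * √p → S + 5 ≤ κ * #(Xw e v) := by
    intro S hS0 hS
    exact (hq₀ p hp1 S hS0 hS).trans (mul_le_mul_of_nonneg_left hXcard hκ.le)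
  by_cases hk0 : k = 0
  · -- only `j`
    subst hk0
    have hj0 : j ≠ 0 := fun h => hne ⟨h, rfl⟩
    have hjp : (j : ZMod p) ≠ 0 := by
      intro h
      rw [ZMod.intCast_zmod_eq_zero_iff_dvd] at h
      exact hj0 (Int.eq_zero_of_abs_lt_dvd h (lt_of_lt_of_le hj (by exact_mod_cast hp2)))
    have h1 : ∀ x, ψ 1 ((j : ZMod p) * x + ((0 : ℤ) : ZMod p) * Mw e v x) =
        ψ 1 ((j : ZMod p) * x) := by
      intro x
      rw [Int.cast_zero, zero_mul, add_zero]
    rw [Finset.sum_congr rfl fun x _ => h1 x]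
    have h2 := norm_sum_le_of_subset (X := Xw e v) (Y := univ) (Finset.subset_univ _)
      (f := fun x => ψ 1 ((j : ZMod p) * x)) (fun x => (hn _).le) (m := 3) (by
        have h4 : (univ : Finset (ZMod p)) \ Xw e v ⊆ {0, v, e} := by
          intro x hx
          rw [mem_sdiff] at hx
          by_contra h
          apply hx.2
          simp only [mem_insert, mem_singleton, not_or] at h
          simp [Xw, h.1, h.2.1, h.2.2]
        exact (card_le_card h4).trans card_le_three)
    rw [wp_sum_mul hψne hjp, norm_zero, zero_add] at h2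
    have h3 := hfin 0 le_rfl (by rw [zero_pow two_ne_zero]; positivity)
    push_cast at h2
    linarith
  · have hkp : (k : ZMod p) ≠ 0 := by
      intro h
      rw [ZMod.intCast_zmod_eq_zero_iff_dvd] at h
      exact hk0 (Int.eq_zero_of_abs_lt_dvd h (lt_of_lt_of_le hk (by exact_mod_cast hp2)))
    have h2 := norm_sum_le_of_subset (X := Xw e v) (Y := univ.erase e) (by
        intro x hx
        simp only [Xw, mem_filter, mem_univ, true_and] at hx
        simp [hx.2.2])
      (f := fun x => ψ 1 ((j : ZMod p) * x + (k : ZMod p) * Mw e v x)) (fun x => (hn _).le)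
      (m := 2) (by
        have h4 : (univ.erase e : Finset (ZMod p)) \ Xw e v ⊆ {0, v} := by
          intro x hx
          rw [mem_sdiff, mem_erase] at hx
          by_contra h
          apply hx.2
          simp only [mem_insert, mem_singleton, not_or] at h
          simp [Xw, h.1, h.2, hx.1.1]
        exact (card_le_card h4).trans card_le_two)
    -- the Kloosterman sum
    set b : ZMod p := (k : ZMod p) * (e * (e - v)) with hb
    have hb0 : b ≠ 0 := mul_ne_zero hkp (mul_ne_zero he (sub_ne_zero.mpr hv.symm))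
    have h5 : ∑ x ∈ univ.erase e, ψ 1 ((j : ZMod p) * x + (k : ZMod p) * Mw e v x) =
        ψ 1 ((j : ZMod p) * e + (k : ZMod p) * e) *
          ∑ y ∈ univ.erase (0 : ZMod p), ψ 1 ((j : ZMod p) * y + b / y) := by
      rw [Finset.mul_sum]
      refine Finset.sum_bij' (fun x _ => x - e) (fun y _ => y + e) ?_ ?_ ?_ ?_ ?_
      · intro x hx
        rw [mem_erase] at hx ⊢
        exact ⟨sub_ne_zero.mpr hx.1, mem_univ _⟩
      · intro y hy
        rw [mem_erase] at hy ⊢
        refine ⟨fun h => hy.1 ?_, mem_univ _⟩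
        linear_combination h
      · intro x _
        simp
      · intro y _
        simp
      · intro x hx
        rw [mem_erase] at hx
        have hxe : x - e ≠ 0 := sub_ne_zero.mpr hx.1
        rw [← AddChar.map_add_eq_mul]
        congr 1
        rw [hb]
        unfold Mw
        field_simp
        ring
    rw [h5, norm_mul, hn, one_mul] at h2
    have h6 := wp_klo (hKLO (ZMod p)) hψne (j := (j : ZMod p)) hb0
    rw [hcard] at h6
    have h7 := hfin _ (norm_nonneg _) (h6.trans (by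
      have : (0 : ℝ) ≤ p * √p := by positivity
      nlinarith))
    push_cast at h2
    linarith

end Pool.Agent.Helper39.CO
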